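import Pool.Agent.Run7.h83.FP.Iface

set_option autoImplicit false

namespace Run7.h83.FP.Bk

open Pool.Agent.Results.MP_eb30e1_co.FewestMembers

instance (k : ℕ) : Finite (EV k) := by
  have : Function.Surjective (fun s : (Fin 4 ⊕ Fin k ⊕ Fin k) => match s with
    | .inl 0 => EV.a
    | .inl 1 => EV.b
    | .inl 2 => EV.c
    | .inl 3 => EV.w
    | .inr (.inl i) => EV.x i
    | .inr (.inr i) => EV.y i) := by
    rintro (_ | _ | _ | _ | i | i)
    · exact ⟨.inl 0, rfl⟩
    · exact ⟨.inl 1, rfl⟩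
    · exact ⟨.inl 2, rfl⟩
    · exact ⟨.inl 3, rfl⟩
    · exact ⟨.inr (.inl i), rfl⟩
    · exact ⟨.inr (.inr i), rfl⟩
  exact Finite.of_surjective _ this

theorem E_order {k j1 j2 l1 l2 : ℕ} {p q : Prop} (h1 : j2 ≤ j1) (h2 : l2 ≤ l1) (h3 : 0 < l2 → p) :
    IsOrder (E k j1 j2 l1 l2 p q) := by
  refine ⟨?_, ?_, ?_⟩
  · rintro (_ | _ | _ | _ | i | i) <;> simp [E]
  · rintro (_ | _ | _ | _ | i | i) (_ | _ | _ | _ | j | j) <;> simp [E] <;> (intro h _; exact h)
  · rintro (_ | _ | _ | _ | i | i) (_ | _ | _ | _ | j | j) (_ | _ | _ | _ | l | l) <;> simp [E] <;>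
      (intros; subst_vars; first | assumption | omega | (apply h3; omega))

theorem E_fpp (hR : S_RET) {k j l : ℕ} : FPP (E k j j l l True False) := by
  refine hR (EV k) (E k j j l l True False) (E_order le_rfl le_rfl (fun _ => trivial))
    (fun v => match v with
      | .a => .a
      | .b => .b
      | .c => .c
      | .w => .a
      | .x i => .x i
      | .y i => .x i) ?_ ?_ .c ?_
  · rintro (_ | _ | _ | _ | i | i) (_ | _ | _ | _ | j | j) <;> simp [E]
  · rintro (_ | _ | _ | _ | i | i) <;> simp [E]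
  · rintro (_ | _ | _ | _ | i | i) <;> simp [E]

theorem E_n0 {k : ℕ} : ¬ FPP (E k 0 0 0 0 False False) := by
  rw [not_FPP_iff]
  refine ⟨fun v => match v with
      | .b => .c
      | _ => .b, ?_, ?_⟩
  · rintro (_ | _ | _ | _ | i | i) (_ | _ | _ | _ | j | j) <;> simp [E]
  · rintro (_ | _ | _ | _ | i | i) <;> simp

theorem E_n1 {k j : ℕ} (hj : j < k) : ¬ FPP (E k (j + 1) j 0 0 True False) := by
  rw [not_FPP_iff]
  refine ⟨fun v => match v with
      | .a => .x ⟨j, hj⟩
      | .b => .x ⟨j, hj⟩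
      | .c => .y ⟨j, hj⟩
      | .w => .y ⟨j, hj⟩
      | .x i => if i.1 = j then .a else .y ⟨j, hj⟩
      | .y i => if i.1 = j then .c else .y ⟨j, hj⟩, ?_, ?_⟩
  · rintro (_ | _ | _ | _ | i | i) (_ | _ | _ | _ | l | l) h <;> simp [E] at h ⊢ <;>
      (try subst h) <;> (try split_ifs) <;> simp_all [E, Fin.ext_iff]
  · rintro (_ | _ | _ | _ | i | i) <;> simp <;> split_ifs <;> simp_all [Fin.ext_iff] <;>
      (intro h; simp_all)

theorem E_n2 {k l : ℕ} (hl : l < k) : ¬ FPP (E k k k (l + 1) l True False) := by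
  rw [not_FPP_iff]
  refine ⟨fun v => match v with
      | .a => .b
      | .b => .a
      | .c => .y ⟨l, hl⟩
      | .w => .y ⟨l, hl⟩
      | .x i => if i.1 = l then .b else .y ⟨l, hl⟩
      | .y i => if i.1 = l then .c else .y ⟨l, hl⟩, ?_, ?_⟩
  · rintro (_ | _ | _ | _ | i | i) (_ | _ | _ | _ | j | j) h <;> simp [E] at h ⊢ <;>
      (try subst h) <;> (try split_ifs) <;> simp_all [E, Fin.ext_iff]
  · rintro (_ | _ | _ | _ | i | i) <;> simp <;> split_ifs <;> simp_all [Fin.ext_iff] <;>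
      (intro h; simp_all)

theorem stp_p {k : ℕ} : Stp (E k 0 0 0 0 False False) (E k 0 0 0 0 True False) := by
  refine ⟨E_order le_rfl le_rfl (by simp), E_order le_rfl le_rfl (by simp), .b, .c, by simp [E], ?_⟩
  rintro (_ | _ | _ | _ | i | i) (_ | _ | _ | _ | j | j) <;> simp [E]

theorem stp_j1 {k j : ℕ} (hj : j < k) : Stp (E k j j 0 0 True False) (E k (j + 1) j 0 0 True False) := by
  refine ⟨E_order le_rfl le_rfl (by simp), E_order (by omega) le_rfl (by simp), .a, .y ⟨j, hj⟩, by simp [E], ?_⟩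
  rintro (_ | _ | _ | _ | i | i) (_ | _ | _ | _ | l | l) <;> simp [E, Fin.ext_iff] <;> omega

theorem stp_j2 {k j : ℕ} (hj : j < k) :
    Stp (E k (j + 1) j 0 0 True False) (E k (j + 1) (j + 1) 0 0 True False) := by
  refine ⟨E_order (by omega) le_rfl (by simp), E_order le_rfl le_rfl (by simp), .a, .x ⟨j, hj⟩, by simp [E], ?_⟩
  rintro (_ | _ | _ | _ | i | i) (_ | _ | _ | _ | l | l) <;> simp [E, Fin.ext_iff] <;> omega

theorem stp_l1 {k l : ℕ} (hl : l < k) : Stp (E k k k l l True False) (E k k k (l + 1) l True False) := by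
  refine ⟨E_order le_rfl le_rfl (by simp), E_order le_rfl (by omega) (by simp), .b, .y ⟨l, hl⟩, by simp [E], ?_⟩
  rintro (_ | _ | _ | _ | i | i) (_ | _ | _ | _ | l | l) <;> simp [E, Fin.ext_iff] <;> omega

theorem stp_l2 {k l : ℕ} (hl : l < k) :
    Stp (E k k k (l + 1) l True False) (E k k k (l + 1) (l + 1) True False) := by
  refine ⟨E_order le_rfl (by omega) (by simp), E_order le_rfl le_rfl (by simp), .b, .x ⟨l, hl⟩, by simp [E], ?_⟩
  rintro (_ | _ | _ | _ | i | i) (_ | _ | _ | _ | l | l) <;> simp [E, Fin.ext_iff] <;> omega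

theorem stp_q {k : ℕ} : Stp (E k k k k k True False) (E k k k k k True True) := by
  refine ⟨E_order le_rfl le_rfl (by simp), E_order le_rfl le_rfl (by simp), .b, .w, by simp [E], ?_⟩
  rintro (_ | _ | _ | _ | i | i) (_ | _ | _ | _ | j | j) <;> simp [E]

theorem t_EVEN : S_RET → S_EVEN := by
  intro hR k
  have h1 : ∀ j, j ≤ k → Rch (E k 0 0 0 0 False False) (j + 1) (E k j j 0 0 True False) := by
    intro j
    induction j with
    | zero => intro _; exact Rch.sw Rch.refl stp_p E_n0 (E_fpp hR)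
    | succ j ih =>
      intro hj
      exact Rch.sw (Rch.step (ih (by omega)) (stp_j1 (by omega))) (stp_j2 (by omega)) (E_n1 (by omega)) (E_fpp hR)
  have h2 : ∀ l, l ≤ k → Rch (E k 0 0 0 0 False False) (k + 1 + l) (E k k k l l True False) := by
    intro l
    induction l with
    | zero => intro _; exact h1 k le_rfl
    | succ l ih =>
      intro hl
      exact Rch.sw (Rch.step (ih (by omega)) (stp_l1 (by omega))) (stp_l2 (by omega)) (E_n2 (by omega)) (E_fpp hR)
  have h3 := Rch.step (h2 k le_rfl) stp_q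
  have h4 : k + 1 + k = 2 * k + 1 := by omega
  rwa [h4] at h3

end Run7.h83.FP.Bk
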