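import Pool.Agent.Run7.h83.FP.Iface

/-!
# Project FP (helper83), piece UB (helper220)
-/

set_option autoImplicit false

namespace Run7.h220.FP

open Run7.h83.FP Pool.Agent.Results.MP_eb30e1_co.FewestMembers

theorem t_UB (hCON : S_CON) : S_UB := by
  classical
  intro n hn r hr
  obtain ⟨k, rfl⟩ : ∃ k, n = k + 2 := ⟨n - 2, by omega⟩
  have hT : 2 * (k + 2).choose 2 = k ^ 2 + 3 * k + 2 := by
    rw [Nat.choose_two_right]
    have he : 2 ∣ (k + 2) * (k + 2 - 1) := (Nat.even_mul_pred_self (k + 2)).two_dvd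
    rw [Nat.mul_div_cancel' he]
    have h1 : k + 2 - 1 = k + 1 := rfl
    rw [h1]; ring
  have hadj : ∀ i, i < (k + 2).choose 2 → ¬ FPP (r i) → FPP (r (i + 1)) →
      k ≤ i ∧ 2 * (i - k) ≤ k ^ 2 := by
    intro i hi h1 h2
    have h3 : ¬ (i + 1 + 2 ≤ k + 2) := fun h => hCON (k + 2) r hr (i + 1) (by omega) h h2
    have h4 : ¬ (2 * ((k + 2).choose 2 - i) < Fintype.card (Fin (k + 2))) := fun h =>
      h1 (fpp_of_few hr hi.le h)
    rw [Fintype.card_fin] at h4
    generalize k ^ 2 = q at *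
    generalize (k + 2).choose 2 = T at *
    omega
  unfold countSw
  have h5 : k + 2 - 2 = k := rfl
  rw [h5, ← Finset.card_range (k ^ 2 / 4 + 1)]
  apply Finset.card_le_card_of_injOn (fun i => (i - k) / 2)
  · intro i hi
    have hi' := Finset.mem_filter.1 (Finset.mem_coe.1 hi)
    obtain ⟨h6, h7⟩ := hadj i (Finset.mem_range.1 hi'.1) hi'.2.1 hi'.2.2
    apply Finset.mem_coe.2
    rw [Finset.mem_range]
    show (i - k) / 2 < k ^ 2 / 4 + 1
    clear hT hadj
    generalize k ^ 2 = q at *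
    omega
  · intro i hi j hj hij
    have hi' := Finset.mem_filter.1 (Finset.mem_coe.1 hi)
    have hj' := Finset.mem_filter.1 (Finset.mem_coe.1 hj)
    obtain ⟨h6, -⟩ := hadj i (Finset.mem_range.1 hi'.1) hi'.2.1 hi'.2.2
    obtain ⟨h7, -⟩ := hadj j (Finset.mem_range.1 hj'.1) hj'.2.1 hj'.2.2
    have hij' : (i - k) / 2 = (j - k) / 2 := hij
    by_contra hne
    rcases (by omega : j = i + 1 ∨ i = j + 1) with h | h
    · rw [h] at hj'
      exact hj'.2.1 hi'.2.2
    · rw [h] at hi'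
      exact hi'.2.1 hj'.2.2

end Run7.h220.FP
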