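import Pool.Agent.Run7.h83.FP.Iface

/-! # Piece EID of project FP (helper83) (helper299) -/

set_option autoImplicit false

namespace Run7.h299.FP

open Run7.h83.FP Pool.Agent.Results.MP_eb30e1_co.FewestMembers

/-- the inverse of the identification -/
def g (k : ℕ) : Bool ⊕ EV k → EV (k + 1)
  | .inl false => .a
  | .inl true => .b
  | .inr .a => .x (Fin.last k)
  | .inr .b => .w
  | .inr .c => .c
  | .inr .w => .y (Fin.last k)
  | .inr (.x i) => .x i.castSucc
  | .inr (.y i) => .y i.castSucc

/-- the identification -/
def f (k : ℕ) : EV (k + 1) → Bool ⊕ EV k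
  | .a => .inl false
  | .b => .inl true
  | .c => .inr .c
  | .w => .inr .b
  | .x i => if h : i.1 < k then .inr (.x ⟨i.1, h⟩) else .inr .a
  | .y i => if h : i.1 < k then .inr (.y ⟨i.1, h⟩) else .inr .w

/-- the equivalence -/
def eqv (k : ℕ) : Bool ⊕ EV k ≃ EV (k + 1) where
  toFun := g k
  invFun := f k
  left_inv := by
    rintro ((_ | _) | (_ | _ | _ | _ | i | i))
    · rfl
    · rfl
    · simp [g, f]
    · rfl
    · rfl
    · simp [g, f]
    · simp [g, f]
    · simp [g, f]
  right_inv := by
    rintro (_ | _ | _ | _ | i | i)
    · rfl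
    · rfl
    · rfl
    · rfl
    · by_cases h : i.1 < k
      · simp only [f, dif_pos h, g]
        rfl
      · simp only [f, dif_neg h, g]
        congr 1
        apply Fin.ext
        simp only [Fin.val_last]
        omega
    · by_cases h : i.1 < k
      · simp only [f, dif_pos h, g]
        rfl
      · simp only [f, dif_neg h, g]
        congr 1
        apply Fin.ext
        simp only [Fin.val_last]
        omega

/-- counting the points -/
def toSum (k : ℕ) : EV k ≃ Fin 4 ⊕ (Fin k ⊕ Fin k) where
  toFun := fun u => match u with
    | .a => .inl 0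
    | .b => .inl 1
    | .c => .inl 2
    | .w => .inl 3
    | .x i => .inr (.inl i)
    | .y i => .inr (.inr i)
  invFun := fun u => match u with
    | .inl 0 => .a
    | .inl 1 => .b
    | .inl 2 => .c
    | .inl 3 => .w
    | .inr (.inl i) => .x i
    | .inr (.inr i) => .y i
  left_inv := by
    intro u
    cases u <;> rfl
  right_inv := by
    rintro (i | i | i)
    · fin_cases i <;> rfl
    · rfl
    · rfl

theorem t_EID : S_EID := by
  refine ⟨fun k => ⟨(eqv k).symm, ?_⟩, ?_, ?_⟩
  · intro u v
    obtain ⟨u', rfl⟩ := (eqv k).surjective u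
    obtain ⟨v', rfl⟩ := (eqv k).surjective v
    rw [Equiv.symm_apply_apply, Equiv.symm_apply_apply]
    show E (k + 1) (k + 1) (k + 1) (k + 1) (k + 1) True True (g k u') (g k v') ↔ _
    rcases u' with (_ | _) | (_ | _ | _ | _ | i | i) <;>
      rcases v' with (_ | _) | (_ | _ | _ | _ | j | j) <;>
      simp [g, E, J] <;> exact (Fin.castSucc_lt_last j).ne'
  · intro h
    obtain ⟨u, hu⟩ := h (fun u => match u with
      | .a => .b
      | .b => .a
      | .c => .w
      | .w => .c
      | .x i => .x i
      | .y i => .y i) (by
        intro u v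
        rcases u with _ | _ | _ | _ | i | i
        all_goals first | exact i.elim0 | skip
        all_goals
          rcases v with _ | _ | _ | _ | j | j
          all_goals first | exact j.elim0 | simp [E])
    rcases u with _ | _ | _ | _ | i | i
    · cases hu
    · cases hu
    · cases hu
    · cases hu
    · exact i.elim0
    · exact i.elim0
  · intro k
    refine ⟨(toSum k).trans (Fintype.equivFinOfCardEq ?_)⟩
    simp only [Fintype.card_sum, Fintype.card_fin]
    omega

end Run7.h299.FP
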