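import Pool.Agent.Run7.h83.FP.Iface

set_option autoImplicit false

namespace Run7.h364.FP

open Run7.h83.FP Pool.Agent.Results.MP_eb30e1_co.FewestMembers

theorem t_CON : S_CON := by
  classical
  intro n r hr i hi hin
  have hord := hr.order i hi
  set G : SimpleGraph (Fin n) :=
    { Adj := fun x y => x ≠ y ∧ (r i x y ∨ r i y x)
      symm := ⟨fun x y h => ⟨h.1.symm, h.2.symm⟩⟩
      loopless := ⟨fun x h => h.1 rfl⟩ } with hG
  have hcard := card_prs hr i hi
  rw [Fintype.card_fin] at hcard
  set S : Finset (Fin n × Fin n) := (prs (r i)).filter (fun p => ¬ p.1 = p.2) with hS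
  have hdiag : ((prs (r i)).filter (fun p => p.1 = p.2)).card = n := by
    have : (prs (r i)).filter (fun p => p.1 = p.2) = (Finset.univ : Finset (Fin n)).image (fun x => (x, x)) := by
      ext ⟨x, y⟩
      simp only [Finset.mem_filter, mem_prs, Finset.mem_image, Finset.mem_univ, true_and, Prod.mk.injEq]
      constructor
      · rintro ⟨_, rfl⟩
        exact ⟨x, rfl, rfl⟩
      · rintro ⟨z, rfl, rfl⟩
        exact ⟨hord.1 _, rfl⟩
    rw [this, Finset.card_image_of_injective _ (fun a b h => (Prod.mk.inj h).1), Finset.card_univ,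
      Fintype.card_fin]
  have hScard : S.card = i := by
    have h := Finset.card_filter_add_card_filter_not (s := prs (r i)) (fun p => p.1 = p.2)
    rw [hdiag, hcard] at h
    have : S.card = ((prs (r i)).filter (fun p => ¬ p.1 = p.2)).card := rfl
    omega
  have hE : Nat.card G.edgeSet ≤ i := by
    rw [Nat.card_coe_set_eq]
    have hsub : G.edgeSet ⊆ ((S.image fun p => s(p.1, p.2) : Finset (Sym2 (Fin n))) : Set (Sym2 (Fin n))) := by
      intro e he
      induction e using Sym2.ind with
      | _ x y =>
        rw [SimpleGraph.mem_edgeSet] at he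
        obtain ⟨hne, h | h⟩ := he
        · rw [Finset.mem_coe, Finset.mem_image]
          exact ⟨(x, y), by rw [hS, Finset.mem_filter, mem_prs]; exact ⟨h, hne⟩, rfl⟩
        · rw [Finset.mem_coe, Finset.mem_image]
          exact ⟨(y, x), by rw [hS, Finset.mem_filter, mem_prs]; exact ⟨h, hne.symm⟩, Sym2.eq_swap⟩
    refine (Set.ncard_le_ncard hsub (Finset.finite_toSet _)).trans ?_
    rw [Set.ncard_coe_finset]
    exact Finset.card_image_le.trans hScard.le
  have hnot : ¬ G.Connected := by
    intro hc
    have h := hc.card_vert_le_card_edgeSet_add_one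
    rw [Nat.card_eq_fintype_card, Fintype.card_fin] at h
    omega
  have hne : Nonempty (Fin n) := ⟨⟨0, by omega⟩⟩
  have hnp : ¬ G.Preconnected := fun h => hnot ⟨h⟩
  unfold SimpleGraph.Preconnected at hnp
  push Not at hnp
  obtain ⟨u, v, huv⟩ := hnp
  intro hF
  obtain ⟨x, hx⟩ := hF (fun x => if G.Reachable u x then v else u) (by
    intro x y hxy
    have heq : (G.Reachable u x) ↔ (G.Reachable u y) := by
      by_cases h : x = y
      · rw [h]
      · have hadj : G.Adj x y := ⟨h, Or.inl hxy⟩
        exact ⟨fun h => h.trans hadj.reachable, fun h => h.trans hadj.symm.reachable⟩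
    simp only [heq]
    exact hord.1 _)
  split_ifs at hx with h
  · exact huv (hx ▸ h)
  · exact h (hx ▸ SimpleGraph.Reachable.refl u)

end Run7.h364.FP
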