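import Pool.Agent.Run7.h83.FP.Iface

set_option autoImplicit false

namespace Run7.h475.FP

open Run7.h83.FP
open Pool.Agent.Results.MP_eb30e1_co.FewestMembers

/-- the inverse of the isomorphism -/
def g (k : ℕ) : Bool ⊕ OV k → OV (k + 1)
  | .inl false => .a
  | .inl true => .b
  | .inr .c => .c
  | .inr .b => .z
  | .inr .w => .w
  | .inr .a => .x (Fin.last k)
  | .inr .z => .y (Fin.last k)
  | .inr (.x i) => .x i.castSucc
  | .inr (.y i) => .y i.castSucc

theorem g_inj (k : ℕ) : Function.Injective (g k) := by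
  rintro ((_ | _) | (_ | _ | _ | _ | _ | i | i)) ((_ | _) | (_ | _ | _ | _ | _ | j | j)) h <;>
    simp [g, Fin.ext_iff] at h ⊢ <;> omega

theorem g_surj (k : ℕ) : Function.Surjective (g k) := by
  rintro (_ | _ | _ | _ | _ | i | i)
  · exact ⟨.inl false, rfl⟩
  · exact ⟨.inl true, rfl⟩
  · exact ⟨.inr .c, rfl⟩
  · exact ⟨.inr .b, rfl⟩
  · exact ⟨.inr .w, rfl⟩
  · refine Fin.lastCases ?_ (fun j => ?_) i
    · exact ⟨.inr .a, rfl⟩
    · exact ⟨.inr (.x j), rfl⟩
  · refine Fin.lastCases ?_ (fun j => ?_) i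
    · exact ⟨.inr .z, rfl⟩
    · exact ⟨.inr (.y j), rfl⟩

theorem g_rel (k : ℕ) (s t : Bool ⊕ OV k) :
    O (k + 1) (k + 1) (k + 1) (k + 1) (k + 1) True True True True (g k s) (g k t) ↔
      J (O k 0 0 0 0 False False False False) s t := by
  rcases s with (_ | _) | (_ | _ | _ | _ | _ | i | i) <;>
    rcases t with (_ | _) | (_ | _ | _ | _ | _ | j | j) <;>
    simp [g, J, O, Fin.ext_iff] <;> omega

/-- exchange -/
def f0 : OV 0 → OV 0
  | .a => .b
  | .b => .a
  | .c => .w
  | .z => .w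
  | .w => .c
  | .x _ => .a
  | .y _ => .a

theorem base : ¬ FPP (O 0 0 0 0 0 True True True True) := by
  intro h
  obtain ⟨x, hx⟩ := h f0 (by
    rintro (_ | _ | _ | _ | _ | i | i) (_ | _ | _ | _ | _ | j | j) <;>
      first
      | exact i.elim0
      | exact j.elim0
      | simp [f0, O])
  rcases x with _ | _ | _ | _ | _ | i | i <;>
    first
    | exact i.elim0
    | simp [f0] at hx

/-- points as a sum -/
def pts (k : ℕ) : Fin 5 ⊕ (Fin k ⊕ Fin k) → OV k
  | .inl 0 => .a
  | .inl 1 => .b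
  | .inl 2 => .c
  | .inl 3 => .z
  | .inl 4 => .w
  | .inr (.inl i) => .x i
  | .inr (.inr i) => .y i

theorem pts_bij (k : ℕ) : Function.Bijective (pts k) := by
  constructor
  · rintro (i | i | i) (j | j | j) h
    · fin_cases i <;> fin_cases j <;> first | rfl | (simp [pts] at h)
    · fin_cases i <;> simp [pts] at h
    · fin_cases i <;> simp [pts] at h
    · fin_cases j <;> simp [pts] at h
    · simp [pts] at h
      rw [h]
    · simp [pts] at h
    · fin_cases j <;> simp [pts] at h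
    · simp [pts] at h
    · simp [pts] at h
      rw [h]
  · rintro (_ | _ | _ | _ | _ | i | i)
    · exact ⟨.inl 0, rfl⟩
    · exact ⟨.inl 1, rfl⟩
    · exact ⟨.inl 2, rfl⟩
    · exact ⟨.inl 3, rfl⟩
    · exact ⟨.inl 4, rfl⟩
    · exact ⟨.inr (.inl i), rfl⟩
    · exact ⟨.inr (.inr i), rfl⟩

theorem t_OID : S_OID := by
  refine ⟨fun k => ?_, base, fun k => ?_⟩
  · refine ⟨(Equiv.ofBijective (g k) ⟨g_inj k, g_surj k⟩).symm, fun s t => ?_⟩
    rw [← g_rel]
    have h : ∀ u, g k ((Equiv.ofBijective (g k) ⟨g_inj k, g_surj k⟩).symm u) = u := fun u =>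
      (Equiv.ofBijective (g k) ⟨g_inj k, g_surj k⟩).apply_symm_apply u
    rw [h, h]
  · refine ⟨(Equiv.ofBijective (pts k) (pts_bij k)).symm.trans ?_⟩
    refine Fintype.equivFinOfCardEq ?_
    simp
    ring

end Run7.h475.FP
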