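import Pool.Agent.Run7.h83.FP.Iface

/-!
MP_eb30e1_co, project FP, piece SEQ: from a path to a maximal chain.
-/

set_option autoImplicit false

namespace Run7.h633.FP

open Pool.Agent.Results.MP_eb30e1_co.FewestMembers Run7.h83.FP

/-- a sequence of steps from the diagonal to `t` -/
def Sq {α : Type} (T m : ℕ) (r : ℕ → α → α → Prop) (t : α → α → Prop) : Prop :=
  (∀ i, i ≤ T → IsOrder (r i)) ∧ (∀ x y, r 0 x y ↔ x = y) ∧
  (∀ i, i < T → ∃ a b, ¬ r i a b ∧ ∀ x y, r (i + 1) x y ↔ r i x y ∨ (x = a ∧ y = b)) ∧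
  r T = t ∧ m ≤ countSw T r

theorem countSw_eq {α : Type} (T : ℕ) (r : ℕ → α → α → Prop) :
    countSw T r = Set.ncard {i | i < T ∧ ¬ FPP (r i) ∧ FPP (r (i + 1))} := by
  unfold countSw
  rw [← Set.ncard_coe_finset]
  congr 1
  ext i
  simp

theorem eq_order {α : Type} : IsOrder (fun x y : α => x = y) :=
  ⟨fun _ => rfl, fun _ _ h _ => h, fun _ _ _ h h' => h.trans h'⟩

open Classical in
/-- the sequence continued by `t` -/
noncomputable def cont {α : Type} (T : ℕ) (r : ℕ → α → α → Prop) (t : α → α → Prop) :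
    ℕ → α → α → Prop := fun i => if i ≤ T then r i else t

theorem cont_le {α : Type} {T : ℕ} {r : ℕ → α → α → Prop} {t : α → α → Prop} {i : ℕ} (h : i ≤ T) :
    cont T r t i = r i := by
  unfold cont
  rw [if_pos h]

theorem cont_gt {α : Type} {T : ℕ} {r : ℕ → α → α → Prop} {t : α → α → Prop} {i : ℕ} (h : ¬ i ≤ T) :
    cont T r t i = t := by
  unfold cont
  rw [if_neg h]

theorem fin_aux {α : Type} (T : ℕ) (r : ℕ → α → α → Prop) :
    {i | i < T ∧ ¬ FPP (r i) ∧ FPP (r (i + 1))}.Finite :=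
  (Set.finite_Iio T).subset fun _ h => h.1

theorem sq_step {α : Type} {T m m' : ℕ} {r : ℕ → α → α → Prop} {s t : α → α → Prop}
    (h : Sq T m r s) (hst : Stp s t) (hm : m' = m ∨ (m' = m + 1 ∧ ¬ FPP s ∧ FPP t)) :
    Sq (T + 1) m' (cont T r t) t := by
  obtain ⟨h1, h2, h3, h4, h5⟩ := h
  have hlast : ¬ (T + 1 ≤ T) := by omega
  refine ⟨?_, ?_, ?_, cont_gt hlast, ?_⟩
  · intro i hi
    by_cases hiT : i ≤ T
    · rw [cont_le hiT]
      exact h1 i hiT
    · rw [cont_gt hiT]
      exact hst.2.1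
  · intro x y
    rw [cont_le (Nat.zero_le T)]
    exact h2 x y
  · intro i hi
    by_cases hiT : i < T
    · rw [cont_le hiT.le, cont_le (Nat.succ_le_of_lt hiT)]
      exact h3 i hiT
    · have a1 : i = T := by omega
      subst a1
      rw [cont_le le_rfl, cont_gt hlast, h4]
      exact hst.2.2
  · rw [countSw_eq] at h5 ⊢
    have hsub : {i | i < T ∧ ¬ FPP (r i) ∧ FPP (r (i + 1))} ⊆
        {i | i < T + 1 ∧ ¬ FPP (cont T r t i) ∧ FPP (cont T r t (i + 1))} := by
      rintro i ⟨k1, k2, k3⟩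
      refine ⟨by omega, ?_, ?_⟩
      · rw [cont_le k1.le]
        exact k2
      · rw [cont_le (Nat.succ_le_of_lt k1)]
        exact k3
    rcases hm with rfl | ⟨rfl, hs, ht⟩
    · exact h5.trans (Set.ncard_le_ncard hsub (fin_aux _ _))
    · have hT : T ∉ {i | i < T ∧ ¬ FPP (r i) ∧ FPP (r (i + 1))} := fun h => lt_irrefl _ h.1
      have hins : insert T {i | i < T ∧ ¬ FPP (r i) ∧ FPP (r (i + 1))} ⊆
          {i | i < T + 1 ∧ ¬ FPP (cont T r t i) ∧ FPP (cont T r t (i + 1))} := by
        refine Set.insert_subset ⟨Nat.lt_succ_self T, ?_, ?_⟩ hsub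
        · rw [cont_le le_rfl, h4]
          exact hs
        · rw [cont_gt hlast]
          exact ht
      have k := Set.ncard_le_ncard hins (fin_aux _ _)
      rw [Set.ncard_insert_of_notMem hT (fin_aux _ _)] at k
      omega

theorem exists_sq {α : Type} {m : ℕ} {t : α → α → Prop} (h : Rch (fun x y => x = y) m t) :
    ∃ T r, Sq T m r t := by
  induction h with
  | refl =>
    refine ⟨0, fun _ => fun x y => x = y, fun _ _ => eq_order, fun _ _ => Iff.rfl,
      fun i hi => absurd hi (Nat.not_lt_zero i), rfl, Nat.zero_le _⟩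
  | step _ hst ih =>
    obtain ⟨T, r, hr⟩ := ih
    exact ⟨_, _, sq_step hr hst (Or.inl rfl)⟩
  | sw _ hst h1 h2 ih =>
    obtain ⟨T, r, hr⟩ := ih
    exact ⟨_, _, sq_step hr hst (Or.inr ⟨rfl, h1, h2⟩)⟩

theorem card_lin {n : ℕ} {s : Fin n → Fin n → Prop} (ho : IsOrder s) (ht : ∀ x y, s x y ∨ s y x) :
    2 * (prs s).card = n * n + n := by
  classical
  have k1 := Finset.card_union_add_card_inter (prs s) (prs (fun x y => s y x))
  have k2 : prs s ∪ prs (fun x y => s y x) = Finset.univ := by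
    ext ⟨x, y⟩
    rw [Finset.mem_union, mem_prs, mem_prs]
    exact ⟨fun _ => Finset.mem_univ _, fun _ => ht x y⟩
  have k3 : prs s ∩ prs (fun x y => s y x) = (Finset.univ : Finset (Fin n)).image fun x => (x, x) := by
    ext ⟨x, y⟩
    rw [Finset.mem_inter, mem_prs, mem_prs]
    simp only [Finset.mem_image, Finset.mem_univ, true_and, Prod.mk.injEq]
    constructor
    · rintro ⟨a, b⟩
      exact ⟨x, rfl, ho.2.1 _ _ a b⟩
    · rintro ⟨z, rfl, rfl⟩
      exact ⟨ho.1 _, ho.1 _⟩
  have k4 : (prs (fun x y => s y x)).card = (prs s).card := by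
    have : prs (fun x y => s y x) = (prs s).map (Equiv.prodComm (Fin n) (Fin n)).toEmbedding := by
      ext ⟨x, y⟩
      rw [mem_prs, Finset.mem_map_equiv, mem_prs]
      rfl
    rw [this, Finset.card_map]
  rw [k2, k3, k4, Finset.card_univ, Fintype.card_prod, Fintype.card_fin,
    Finset.card_image_of_injective _ (fun x y h => (Prod.mk.injEq _ _ _ _ ▸ h).1),
    Finset.card_univ, Fintype.card_fin] at k1
  omega

theorem t_SEQ : S_SEQ := by
  intro n m t h htot
  obtain ⟨T, r, h1, h2, h3, h4, h5⟩ := exists_sq h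
  have hc : IsMaximalChain T r := ⟨h1, h2, h3, by rw [h4]; exact htot⟩
  have hT : T = n.choose 2 := by
    have k1 := card_prs hc T le_rfl
    rw [Fintype.card_fin] at k1
    have k2 := card_lin (h1 T le_rfl) hc.final
    rw [k1] at k2
    rw [Nat.choose_two_right]
    rcases Nat.eq_zero_or_pos n with rfl | hn
    · simp at k2 ⊢
      omega
    · obtain ⟨k, rfl⟩ := Nat.exists_eq_add_of_le hn
      have k3 : (1 + k) * (1 + k - 1) = 2 * T := by
        rw [Nat.add_sub_cancel_left]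
        nlinarith
      rw [k3]
      omega
  subst hT
  exact ⟨r, hc, h5⟩

end Run7.h633.FP
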