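import Pool.Agent.Run7.h83.FP.Iface

/-!
# Project FP (helper83), piece ODD, by helper915
-/

set_option autoImplicit false

namespace Run7.h915.FP

open Run7.h83.FP Pool.Agent.Results.MP_eb30e1_co.FewestMembers

theorem finite_OV (k : ℕ) : Finite (OV k) := by
  refine Finite.of_surjective (α := Fin 5 ⊕ Fin k ⊕ Fin k) (fun s => match s with
    | .inl 0 => OV.a
    | .inl 1 => OV.b
    | .inl 2 => OV.c
    | .inl 3 => OV.z
    | .inl 4 => OV.w
    | .inr (.inl i) => OV.x i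
    | .inr (.inr i) => OV.y i) ?_
  rintro (_ | _ | _ | _ | _ | i | i)
  exacts [⟨.inl 0, rfl⟩, ⟨.inl 1, rfl⟩, ⟨.inl 2, rfl⟩, ⟨.inl 3, rfl⟩, ⟨.inl 4, rfl⟩,
    ⟨.inr (.inl i), rfl⟩, ⟨.inr (.inr i), rfl⟩]

theorem ord (k j1 j2 l1 l2 : ℕ) (p q u v : Prop) (hj : j2 ≤ j1) (hl : l2 ≤ l1) :
    IsOrder (O k j1 j2 l1 l2 p q u v) := by
  refine ⟨?_, ?_, ?_⟩
  · rintro (_ | _ | _ | _ | _ | i | i) <;> simp [O]
  · rintro (_ | _ | _ | _ | _ | i | i) (_ | _ | _ | _ | _ | j | j) <;> simp [O] <;>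
      exact fun h _ => h
  · rintro (_ | _ | _ | _ | _ | i | i) (_ | _ | _ | _ | _ | j | j) (_ | _ | _ | _ | _ | l | l) h1 h2 <;>
      simp only [O] at h1 h2 ⊢ <;> first | trivial | (subst h1; assumption) | (subst h1; omega) | (subst h2; omega) | omega

/-- `a < y j` is added -/
theorem stp_ay (k j l1 l2 : ℕ) (p q u v : Prop) (hj : j < k) (hl : l2 ≤ l1) :
    Stp (O k j j l1 l2 p q u v) (O k (j + 1) j l1 l2 p q u v) := by
  refine ⟨ord _ _ _ _ _ _ _ _ _ le_rfl hl, ord _ _ _ _ _ _ _ _ _ (Nat.le_succ j) hl,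
    .a, .y ⟨j, hj⟩, by simp [O], ?_⟩
  rintro (_ | _ | _ | _ | _ | i | i) (_ | _ | _ | _ | _ | j' | j') <;>
    simp [O, Fin.ext_iff] <;> omega

/-- `a < x j` is added -/
theorem stp_ax (k j l1 l2 : ℕ) (p q u v : Prop) (hj : j < k) (hl : l2 ≤ l1) :
    Stp (O k (j + 1) j l1 l2 p q u v) (O k (j + 1) (j + 1) l1 l2 p q u v) := by
  refine ⟨ord _ _ _ _ _ _ _ _ _ (Nat.le_succ j) hl, ord _ _ _ _ _ _ _ _ _ le_rfl hl,
    .a, .x ⟨j, hj⟩, by simp [O], ?_⟩
  rintro (_ | _ | _ | _ | _ | i | i) (_ | _ | _ | _ | _ | j' | j') <;>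
    simp [O, Fin.ext_iff] <;> omega

/-- `b < y l` is added -/
theorem stp_by (k l j1 j2 : ℕ) (p q u v : Prop) (hl : l < k) (hj : j2 ≤ j1) :
    Stp (O k j1 j2 l l p q u v) (O k j1 j2 (l + 1) l p q u v) := by
  refine ⟨ord _ _ _ _ _ _ _ _ _ hj le_rfl, ord _ _ _ _ _ _ _ _ _ hj (Nat.le_succ l),
    .b, .y ⟨l, hl⟩, by simp [O], ?_⟩
  rintro (_ | _ | _ | _ | _ | i | i) (_ | _ | _ | _ | _ | j' | j') <;>
    simp [O, Fin.ext_iff] <;> omega

/-- `b < x l` is added -/
theorem stp_bx (k l j1 j2 : ℕ) (p q u v : Prop) (hl : l < k) (hj : j2 ≤ j1) :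
    Stp (O k j1 j2 (l + 1) l p q u v) (O k j1 j2 (l + 1) (l + 1) p q u v) := by
  refine ⟨ord _ _ _ _ _ _ _ _ _ hj (Nat.le_succ l), ord _ _ _ _ _ _ _ _ _ hj le_rfl,
    .b, .x ⟨l, hl⟩, by simp [O], ?_⟩
  rintro (_ | _ | _ | _ | _ | i | i) (_ | _ | _ | _ | _ | j' | j') <;>
    simp [O, Fin.ext_iff] <;> omega

theorem stp_p (k j l : ℕ) (q u v : Prop) :
    Stp (O k j j l l False q u v) (O k j j l l True q u v) := by
  refine ⟨ord _ _ _ _ _ _ _ _ _ le_rfl le_rfl, ord _ _ _ _ _ _ _ _ _ le_rfl le_rfl,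
    .b, .w, by simp [O], ?_⟩
  rintro (_ | _ | _ | _ | _ | i | i) (_ | _ | _ | _ | _ | j' | j') <;> simp [O]

theorem stp_q (k j l : ℕ) (p u v : Prop) :
    Stp (O k j j l l p False u v) (O k j j l l p True u v) := by
  refine ⟨ord _ _ _ _ _ _ _ _ _ le_rfl le_rfl, ord _ _ _ _ _ _ _ _ _ le_rfl le_rfl,
    .b, .z, by simp [O], ?_⟩
  rintro (_ | _ | _ | _ | _ | i | i) (_ | _ | _ | _ | _ | j' | j') <;> simp [O]

theorem stp_u (k j l : ℕ) (p q v : Prop) :
    Stp (O k j j l l p q False v) (O k j j l l p q True v) := by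
  refine ⟨ord _ _ _ _ _ _ _ _ _ le_rfl le_rfl, ord _ _ _ _ _ _ _ _ _ le_rfl le_rfl,
    .z, .c, by simp [O], ?_⟩
  rintro (_ | _ | _ | _ | _ | i | i) (_ | _ | _ | _ | _ | j' | j') <;> simp [O]

theorem stp_v (k j l : ℕ) (p q u : Prop) :
    Stp (O k j j l l p q u False) (O k j j l l p q u True) := by
  refine ⟨ord _ _ _ _ _ _ _ _ _ le_rfl le_rfl, ord _ _ _ _ _ _ _ _ _ le_rfl le_rfl,
    .a, .w, by simp [O], ?_⟩
  rintro (_ | _ | _ | _ | _ | i | i) (_ | _ | _ | _ | _ | j' | j') <;> simp [O]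

/-- the retraction -/
def rho (k : ℕ) : OV k → OV k
  | .a => .a
  | .b => .b
  | .c => .c
  | .z => .a
  | .w => .b
  | .x i => .x i
  | .y i => .x i

theorem fpp1 (hR : S_RET) (k j l : ℕ) : FPP (O k j j l l True False False False) := by
  have := finite_OV k
  refine hR (OV k) _ (ord _ _ _ _ _ _ _ _ _ le_rfl le_rfl) (rho k) ?_ ?_ .c ?_
  · rintro (_ | _ | _ | _ | _ | i | i) (_ | _ | _ | _ | _ | j' | j') <;> simp [O, rho]
  · rintro (_ | _ | _ | _ | _ | i | i) <;> simp [O, rho]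
  · rintro (_ | _ | _ | _ | _ | i | i) <;> simp [O, rho]

/-- the second retraction -/
def rho2 (k : ℕ) : OV k → OV k
  | .a => .a
  | .b => .b
  | .c => .c
  | .z => .z
  | .w => .b
  | .x i => .x i
  | .y i => .x i

theorem fpp2 (hR : S_RET) (k : ℕ) : FPP (O k k k k k True True True False) := by
  have := finite_OV k
  refine hR (OV k) _ (ord _ _ _ _ _ _ _ _ _ le_rfl le_rfl) (rho2 k) ?_ ?_ .c ?_
  · rintro (_ | _ | _ | _ | _ | i | i) (_ | _ | _ | _ | _ | j' | j') <;> simp [O, rho2]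
  · rintro (_ | _ | _ | _ | _ | i | i) <;> simp [O, rho2]
  · rintro (_ | _ | _ | _ | _ | i | i) <;> simp [O, rho2]

theorem nf0 (k : ℕ) : ¬ FPP (O k 0 0 0 0 False False False False) := by
  intro h
  obtain ⟨t, ht⟩ := h (fun t => match t with
    | .w => .c
    | _ => .w) (by
      rintro (_ | _ | _ | _ | _ | i | i) (_ | _ | _ | _ | _ | j' | j') <;> simp [O])
  cases t <;> simp at ht

/-- no fixed point property before `a < x j` is added -/
theorem nf1 (k j : ℕ) (hj : j < k) : ¬ FPP (O k (j + 1) j 0 0 True False False False) := by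
  classical
  intro h
  obtain ⟨t, ht⟩ := h (fun t => match t with
    | .a => .x ⟨j, hj⟩
    | .b => .x ⟨j, hj⟩
    | .c => .y ⟨j, hj⟩
    | .x i => if i.1 = j then .a else .y ⟨j, hj⟩
    | .y i => if i.1 = j then .c else .y ⟨j, hj⟩
    | .z => .y ⟨j, hj⟩
    | .w => .y ⟨j, hj⟩) (by
      rintro (_ | _ | _ | _ | _ | i | i) (_ | _ | _ | _ | _ | j' | j') <;>
        simp only [O] <;> intro hh <;> (try subst hh) <;> (try split_ifs) <;>
        first | trivial | (simp [O]; done) | (simp [O]; omega) | omega)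
  cases t with
  | x i =>
    simp only at ht
    split_ifs at ht
  | y i =>
    simp only at ht
    split_ifs at ht with h1
    · rw [OV.y.injEq] at ht
      exact h1 (by rw [← ht])
  | _ => simp at ht

/-- no fixed point property before `b < x l` is added -/
theorem nf2 (k l : ℕ) (hl : l < k) : ¬ FPP (O k k k (l + 1) l True False False False) := by
  classical
  intro h
  obtain ⟨t, ht⟩ := h (fun t => match t with
    | .a => .b
    | .b => .a
    | .c => .y ⟨l, hl⟩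
    | .x i => if i.1 = l then .b else .y ⟨l, hl⟩
    | .y i => if i.1 = l then .c else .y ⟨l, hl⟩
    | .z => .y ⟨l, hl⟩
    | .w => .y ⟨l, hl⟩) (by
      rintro (_ | _ | _ | _ | _ | i | i) (_ | _ | _ | _ | _ | j' | j') <;>
        simp only [O] <;> intro hh <;> (try subst hh) <;> (try split_ifs) <;>
        first | trivial | (simp [O]; done) | (simp [O]; omega) | omega)
  cases t with
  | x i =>
    simp only at ht
    split_ifs at ht
  | y i =>
    simp only at ht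
    split_ifs at ht with h1
    · rw [OV.y.injEq] at ht
      exact h1 (by rw [← ht])
  | _ => simp at ht

theorem nf3 (k : ℕ) : ¬ FPP (O k k k k k True True False False) := by
  intro h
  obtain ⟨t, ht⟩ := h (fun t => match t with
    | .a => .b
    | .b => .a
    | .c => .z
    | .z => .c
    | _ => .z) (by
      rintro (_ | _ | _ | _ | _ | i | i) (_ | _ | _ | _ | _ | j' | j') <;> simp [O])
  cases t <;> simp at ht

theorem t_ODD (hR : S_RET) : S_ODD := by
  intro k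
  have h1 : ∀ j, j ≤ k → Rch (O k 0 0 0 0 False False False False) (j + 1)
      (O k j j 0 0 True False False False) := by
    intro j
    induction j with
    | zero => intro _; exact Rch.sw Rch.refl (stp_p k 0 0 _ _ _) (nf0 k) (fpp1 hR k 0 0)
    | succ j ih =>
      intro hj
      exact Rch.sw (Rch.step (ih (by omega)) (stp_ay k j 0 0 _ _ _ _ hj le_rfl))
        (stp_ax k j 0 0 _ _ _ _ hj le_rfl) (nf1 k j hj) (fpp1 hR k (j + 1) 0)
  have h2 : ∀ l, l ≤ k → Rch (O k 0 0 0 0 False False False False) (k + 1 + l)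
      (O k k k l l True False False False) := by
    intro l
    induction l with
    | zero => intro _; exact h1 k le_rfl
    | succ l ih =>
      intro hl
      exact Rch.sw (Rch.step (ih (by omega)) (stp_by k l k k _ _ _ _ hl le_rfl))
        (stp_bx k l k k _ _ _ _ hl le_rfl) (nf2 k l hl) (fpp1 hR k k (l + 1))
  have h3 := Rch.step (Rch.sw (Rch.step (h2 k le_rfl) (stp_q k k k _ _ _)) (stp_u k k k _ _ _)
    (nf3 k) (fpp2 hR k)) (stp_v k k k _ _ _)
  have e : k + 1 + k + 1 = 2 * k + 2 := by ring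
  rw [e] at h3
  exact h3

end Run7.h915.FP
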