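import Pool.Agent.Run7.h83.FP.Iface

/-!
# Project FP (helper83): the pieces RET, JOIN, ONE, TRA
-/

set_option autoImplicit false

namespace Run7.h957.FP

open Run7.h83.FP Pool.Agent.Results.MP_eb30e1_co.FewestMembers

theorem t_RET : S_RET := by
  intro α _ r hr ρ hρ hρx t ht
  have := Fintype.ofFinite α
  intro f hf
  by_contra hno
  push Not at hno
  obtain ⟨p, hp⟩ : ∃ p, ρ (f p) = p := by
    by_contra hno2
    push Not at hno2
    exact (incomp_of_free hr (f := fun x => ρ (f x)) (fun x y h => hρ _ _ (hf x y h)) hno2 t).2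
      (ht (f t))
  have h1 : r p (f p) := by
    have h2 := hρx (f p)
    rwa [hp] at h2
  exact (incomp_of_free hr hf hno p).1 h1

theorem J_order {β : Type} {r : β → β → Prop} (hr : IsOrder r) : IsOrder (J r) := by
  refine ⟨?_, ?_, ?_⟩
  · rintro (a | x)
    · exact rfl
    · exact hr.1 x
  · rintro (a | x) (b | y) h1 h2
    · exact congrArg Sum.inl h1
    · exact absurd h2 id
    · exact absurd h1 id
    · exact congrArg Sum.inr (hr.2.1 x y h1 h2)
  · rintro (a | x) (b | y) (c | z) h1 h2
    · exact Eq.trans (h1 : a = b) (h2 : b = c)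
    · exact trivial
    · exact absurd h2 id
    · exact trivial
    · exact absurd h1 id
    · exact absurd h1 id
    · exact absurd h2 id
    · exact hr.2.2 x y z h1 h2

theorem J_fpp {β : Type} (r : β → β → Prop) : FPP (J r) ↔ FPP r := by
  constructor
  · intro h g hg
    obtain ⟨z, hz⟩ := h (Sum.map (fun a => !a) g) (by
      rintro (a | x) (b | y) hxy
      · exact congrArg (fun a => !a) (hxy : a = b)
      · exact trivial
      · exact absurd hxy id
      · exact hg x y hxy)
    rcases z with a | x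
    · have h1 : (!a) = a := Sum.inl_injective hz
      cases a <;> simp at h1
    · exact ⟨x, Sum.inr_injective hz⟩
  · intro h f hf
    by_cases hc : ∃ x a, f (Sum.inr x) = Sum.inl a
    · obtain ⟨x, a, hxa⟩ := hc
      refine ⟨Sum.inl a, ?_⟩
      have h1 := hf (Sum.inl a) (Sum.inr x) trivial
      rw [hxa] at h1
      rcases hfa : f (Sum.inl a) with b | y
      · rw [hfa] at h1
        exact congrArg Sum.inl (h1 : b = a)
      · rw [hfa] at h1
        exact absurd h1 id
    · push Not at hc
      have h1 : ∀ x, ∃ y, f (Sum.inr x) = Sum.inr y := by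
        intro x
        rcases hfx : f (Sum.inr x) with a | y
        · exact absurd hfx (hc x a)
        · exact ⟨y, rfl⟩
      choose g hg using h1
      obtain ⟨x, hx⟩ := h g (fun x y hxy => by
        have h2 := hf (Sum.inr x) (Sum.inr y) hxy
        rw [hg, hg] at h2
        exact h2)
      exact ⟨Sum.inr x, by rw [hg, hx]⟩

theorem J_stp {β : Type} {r s : β → β → Prop} (h : Stp r s) : Stp (J r) (J s) := by
  obtain ⟨hr, hs, a, b, hab, hst⟩ := h
  refine ⟨J_order hr, J_order hs, Sum.inr a, Sum.inr b, hab, ?_⟩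
  rintro (c | x) (d | y)
  · refine ⟨fun h => Or.inl h, ?_⟩
    rintro (h | ⟨h, -⟩)
    · exact h
    · exact absurd h (by simp)
  · exact ⟨fun _ => Or.inl trivial, fun _ => trivial⟩
  · refine ⟨fun h => absurd h id, ?_⟩
    rintro (h | ⟨-, h⟩)
    · exact absurd h id
    · exact absurd h (by simp)
  · show s x y ↔ r x y ∨ (Sum.inr x = Sum.inr a ∧ Sum.inr y = Sum.inr b)
    rw [hst, Sum.inr.injEq, Sum.inr.injEq]

theorem t_JOIN : S_JOIN := by
  intro β r s m
  refine ⟨J_fpp r, fun h => ?_⟩
  induction h with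
  | refl => exact Rch.refl
  | step _ hst ih => exact Rch.step ih (J_stp hst)
  | sw _ hst h1 h2 ih =>
    exact Rch.sw ih (J_stp hst) (fun h => h1 ((J_fpp _).mp h)) ((J_fpp _).mpr h2)

theorem one_aux {α : Type} {r : α → α → Prop} {m : ℕ} {t : α → α → Prop} (h : Rch r m t)
    (hm : m = 0) (hr : ¬ FPP r) : ¬ FPP t ∨ Rch r 1 t := by
  induction h with
  | refl => exact Or.inl hr
  | @step m s t h0 hst ih =>
    subst hm
    rcases ih rfl with h1 | h1
    · by_cases h2 : FPP t
      · exact Or.inr (Rch.sw h0 hst h1 h2)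
      · exact Or.inl h2
    · exact Or.inr (Rch.step h1 hst)
  | sw _ _ _ _ _ => exact absurd hm (Nat.succ_ne_zero _)

theorem t_ONE : S_ONE := by
  intro α r t h hr ht
  rcases one_aux h rfl hr with h1 | h1
  · exact absurd ht h1
  · exact h1

theorem fpp_e {α β : Type} (e : β ≃ α) (r : α → α → Prop) :
    FPP (fun x y => r (e x) (e y)) ↔ FPP r := by
  constructor
  · intro h f hf
    obtain ⟨x, hx⟩ := h (fun x => e.symm (f (e x))) (fun x y hxy => by
      show r (e (e.symm (f (e x)))) (e (e.symm (f (e y))))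
      rw [e.apply_symm_apply, e.apply_symm_apply]
      exact hf _ _ hxy)
    exact ⟨e x, by rw [← e.symm_apply_eq]; exact hx⟩
  · intro h f hf
    obtain ⟨x, hx⟩ := h (fun x => e (f (e.symm x))) (fun x y hxy => by
      refine hf (e.symm x) (e.symm y) ?_
      show r (e (e.symm x)) (e (e.symm y))
      rw [e.apply_symm_apply, e.apply_symm_apply]
      exact hxy)
    exact ⟨e.symm x, by rw [e.eq_symm_apply]; exact hx⟩

theorem order_e {α β : Type} (e : β ≃ α) {r : α → α → Prop} (hr : IsOrder r) :
    IsOrder (fun x y => r (e x) (e y)) :=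
  ⟨fun x => hr.1 (e x), fun x y h1 h2 => e.injective (hr.2.1 _ _ h1 h2),
    fun x y z h1 h2 => hr.2.2 _ _ _ h1 h2⟩

theorem stp_e {α β : Type} (e : β ≃ α) {r s : α → α → Prop} (h : Stp r s) :
    Stp (fun x y => r (e x) (e y)) (fun x y => s (e x) (e y)) := by
  obtain ⟨hr, hs, a, b, hab, hst⟩ := h
  refine ⟨order_e e hr, order_e e hs, e.symm a, e.symm b, ?_, ?_⟩
  · show ¬ r (e (e.symm a)) (e (e.symm b))
    rw [e.apply_symm_apply, e.apply_symm_apply]
    exact hab
  · intro x y
    show s (e x) (e y) ↔ r (e x) (e y) ∨ (x = e.symm a ∧ y = e.symm b)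
    rw [hst, e.eq_symm_apply, e.eq_symm_apply]

theorem t_TRA : S_TRA := by
  refine ⟨?_, ?_, fun α β e r => fpp_e e r⟩
  · intro α r s t m k h1 h2
    induction h2 with
    | refl => exact h1
    | step _ hst ih => exact Rch.step ih hst
    | sw _ hst h3 h4 ih => exact Rch.sw ih hst h3 h4
  · intro α β e r s m h
    induction h with
    | refl => exact Rch.refl
    | step _ hst ih => exact Rch.step ih (stp_e e hst)
    | sw _ hst h1 h2 ih =>
      exact Rch.sw ih (stp_e e hst) (fun h => h1 ((fpp_e e _).mp h)) ((fpp_e e _).mpr h2)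

end Run7.h957.FP
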