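import Pool.Agent.Run7.h83.FP.Iface

set_option autoImplicit false

namespace Run7.h83.FP

open Pool.Agent.Results.MP_eb30e1_co.FewestMembers

theorem even_chain (hTRA : S_TRA) (hJOIN : S_JOIN) (hEV : S_EVEN) (hEID : S_EID) (k : ℕ) :
    ∃ s, ¬ FPP s ∧ Rch (E k 0 0 0 0 False False) ((k + 1) ^ 2) s := by
  induction k with
  | zero => exact ⟨_, hEID.2.1, by simpa using hEV 0⟩
  | succ k ih =>
    obtain ⟨s, hs, hr⟩ := ih
    obtain ⟨e, he⟩ := hEID.1 k
    refine ⟨fun x y => J s (e x) (e y), ?_, ?_⟩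
    · rw [hTRA.2.2 _ _ e (J s), (hJOIN _ s s 0).1]
      exact hs
    · have h1 := hEV (k + 1)
      have h2 : E (k + 1) (k + 1) (k + 1) (k + 1) (k + 1) True True =
          fun u v => J (E k 0 0 0 0 False False) (e u) (e v) := by
        funext u v
        exact propext (he u v)
      rw [h2] at h1
      have h3 := hTRA.2.1 _ _ e _ _ _ ((hJOIN _ _ _ _).2 hr)
      have h4 := hTRA.1 _ _ _ _ _ _ h1 h3
      have h5 : 2 * (k + 1) + 1 + (k + 1) ^ 2 = (k + 1 + 1) ^ 2 := by ring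
      rwa [h5] at h4

theorem odd_chain (hTRA : S_TRA) (hJOIN : S_JOIN) (hOD : S_ODD) (hOID : S_OID) (k : ℕ) :
    ∃ s, ¬ FPP s ∧ Rch (O k 0 0 0 0 False False False False) ((k + 1) * (k + 2)) s := by
  induction k with
  | zero => exact ⟨_, hOID.2.1, by simpa using hOD 0⟩
  | succ k ih =>
    obtain ⟨s, hs, hr⟩ := ih
    obtain ⟨e, he⟩ := hOID.1 k
    refine ⟨fun x y => J s (e x) (e y), ?_, ?_⟩
    · rw [hTRA.2.2 _ _ e (J s), (hJOIN _ s s 0).1]
      exact hs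
    · have h1 := hOD (k + 1)
      have h2 : O (k + 1) (k + 1) (k + 1) (k + 1) (k + 1) True True True True =
          fun u v => J (O k 0 0 0 0 False False False False) (e u) (e v) := by
        funext u v
        exact propext (he u v)
      rw [h2] at h1
      have h3 := hTRA.2.1 _ _ e _ _ _ ((hJOIN _ _ _ _).2 hr)
      have h4 := hTRA.1 _ _ _ _ _ _ h1 h3
      have h5 : 2 * (k + 1) + 2 + (k + 1) * (k + 2) = (k + 1 + 1) * (k + 1 + 2) := by ring
      rwa [h5] at h4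

theorem ord_of {α : Type} {r s : α → α → Prop} {m : ℕ} (h : Rch r m s) :
    (m = 0 ∧ s = r) ∨ (IsOrder r ∧ IsOrder s) := by
  induction h with
  | refl => exact Or.inl ⟨rfl, rfl⟩
  | step h1 h2 ih =>
    rcases ih with ⟨-, h⟩ | ⟨h, -⟩
    · subst h
      exact Or.inr ⟨h2.1, h2.2.1⟩
    · exact Or.inr ⟨h, h2.2.1⟩
  | sw h1 h2 h3 h4 ih =>
    rcases ih with ⟨-, h⟩ | ⟨h, -⟩
    · subst h
      exact Or.inr ⟨h2.1, h2.2.1⟩
    · exact Or.inr ⟨h, h2.2.1⟩

theorem eq_order {α : Type} : IsOrder (fun x y : α => x = y) :=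
  ⟨fun _ => rfl, fun _ _ h _ => h, fun _ _ _ h h' => h.trans h'⟩

theorem core (hTRA : S_TRA) (hJOIN : S_JOIN) (hEV : S_EVEN) (hEID : S_EID) (hOD : S_ODD) (hOID : S_OID) (n : ℕ)
    (hn : 2 ≤ n) : ∃ r s : Fin n → Fin n → Prop, IsOrder r ∧ IsOrder s ∧ ¬ FPP s ∧ Rch r ((n - 2) ^ 2 / 4) s := by
  rcases Nat.lt_or_ge n 4 with h4 | h4
  · refine ⟨fun x y => x = y, fun x y => x = y, eq_order, eq_order, ?_, ?_⟩
    · intro h
      obtain ⟨x, hx⟩ := h (fun x => if x = ⟨0, by omega⟩ then ⟨1, by omega⟩ else ⟨0, by omega⟩)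
        (fun x y hxy => by rw [show x = y from hxy])
      split_ifs at hx with h0
      · rw [h0] at hx
        simp at hx
      · exact h0 hx.symm
    · have : (n - 2) ^ 2 / 4 = 0 := by
        interval_cases n <;> rfl
      rw [this]
      exact Rch.refl
  · rcases Nat.even_or_odd' n with ⟨c, hc | hc⟩
    · obtain ⟨k, rfl⟩ : ∃ k, c = k + 2 := ⟨c - 2, by omega⟩
      obtain ⟨s, hs, hr⟩ := even_chain hTRA hJOIN hEV hEID k
      obtain ⟨e⟩ := hEID.2.2 k
      have hn' : 2 * k + 4 = n := by omega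
      subst hn'
      have h1 := hTRA.2.1 _ _ e.symm _ _ _ hr
      have h2 : (2 * k + 4 - 2) ^ 2 / 4 = (k + 1) ^ 2 := by
        have : 2 * k + 4 - 2 = 2 * (k + 1) := by omega
        rw [this, mul_pow]
        norm_num
      rw [h2]
      rcases ord_of h1 with ⟨h, -⟩ | ⟨h, h'⟩
      · exact absurd h (by positivity)
      · exact ⟨_, _, h, h', by rw [hTRA.2.2 _ _ e.symm s]; exact hs, h1⟩
    · obtain ⟨k, rfl⟩ : ∃ k, c = k + 2 := ⟨c - 2, by omega⟩
      obtain ⟨s, hs, hr⟩ := odd_chain hTRA hJOIN hOD hOID k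
      obtain ⟨e⟩ := hOID.2.2 k
      have hn' : 2 * k + 5 = n := by omega
      subst hn'
      have h1 := hTRA.2.1 _ _ e.symm _ _ _ hr
      have h2 : (2 * k + 5 - 2) ^ 2 / 4 = (k + 1) * (k + 2) := by
        have e1 : 2 * k + 5 - 2 = 2 * k + 3 := by omega
        have e2 : (2 * k + 3) ^ 2 = 1 + 4 * ((k + 1) * (k + 2)) := by ring
        rw [e1, e2, Nat.add_mul_div_left _ _ (by norm_num)]
        norm_num
      rw [h2]
      rcases ord_of h1 with ⟨h, -⟩ | ⟨h, h'⟩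
      · exact absurd h (by positivity)
      · exact ⟨_, _, h, h', by rw [hTRA.2.2 _ _ e.symm s]; exact hs, h1⟩

theorem main_of (hUP : S_UP) (hDOWN : S_DOWN) (hSEQ : S_SEQ) (hUB : S_UB) (hONE : S_ONE) (hTRA : S_TRA)
    (hJOIN : S_JOIN) (hEV : S_EVEN) (hEID : S_EID) (hOD : S_ODD) (hOID : S_OID) (n : ℕ) (hn : 2 ≤ n) :
    IsGreatest {m : ℕ | ∃ r : ℕ → Fin n → Fin n → Prop, IsMaximalChain (n.choose 2) r ∧
      m = countSw (n.choose 2) r} ((n - 2) ^ 2 / 4 + 1) := by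
  constructor
  · obtain ⟨r, s, hr, hs, hF, hRch⟩ := core hTRA hJOIN hEV hEID hOD hOID n hn
    obtain ⟨t, ht, hlin, hst⟩ := hUP _ s hs
    have hFt : FPP t := by
      by_contra hcon
      obtain ⟨f, hf, hfree⟩ := not_FPP_iff.1 hcon
      have h1 := incomp_of_free ht hf hfree ⟨0, by omega⟩
      rcases hlin ⟨0, by omega⟩ (f ⟨0, by omega⟩) with h | h
      · exact h1.1 h
      · exact h1.2 h
    have h1 := hONE _ s t hst hF hFt
    have h2 := hTRA.1 _ _ _ _ _ _ (hTRA.1 _ _ _ _ _ _ (hDOWN _ r hr) hRch) h1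
    obtain ⟨q, hq, hle⟩ := hSEQ n _ t h2 hlin
    refine ⟨q, hq, le_antisymm ?_ (hUB n hn q hq)⟩
    rw [zero_add] at hle
    exact hle
  · rintro m ⟨r, hr, rfl⟩
    exact hUB n hn r hr

end Run7.h83.FP
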