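import Pool.Agent.Results.MP_eb30e1_co.FewestMembers

/-!
# Project FP (helper83), MP_eb30e1_co Q2: the largest number of adjacencies without/with FPP is `⌊(n-2)²/4⌋ + 1`

Upper bound: a member with fewer than `n - 1` pairs is not connected, a member with fewer than `n / 2` incomparable
pairs has the FPP, and two consecutive steps are not both adjacencies. Lower bound: an explicit chain, recursively:
`Q_n` → `{a, b} ⊕ Q_(n-2)` alternates at every step.
-/

set_option autoImplicit false

namespace Run7.h83.FP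

open Pool.Agent.Results.MP_eb30e1_co.FewestMembers

/-- one pair is added -/
def Stp {α : Type} (r s : α → α → Prop) : Prop :=
  IsOrder r ∧ IsOrder s ∧ ∃ a b, ¬ r a b ∧ ∀ x y, s x y ↔ r x y ∨ (x = a ∧ y = b)

/-- a path of steps from `r` with `m` adjacencies (without FPP, with FPP) -/
inductive Rch {α : Type} (r : α → α → Prop) : ℕ → (α → α → Prop) → Prop
  | refl : Rch r 0 r
  | step {m : ℕ} {s t : α → α → Prop} : Rch r m s → Stp s t → Rch r m t
  | sw {m : ℕ} {s t : α → α → Prop} : Rch r m s → Stp s t → ¬ FPP s → FPP t → Rch r (m + 1) t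

open Classical in
/-- the number of adjacencies -/
noncomputable def countSw {α : Type} (T : ℕ) (r : ℕ → α → α → Prop) : ℕ :=
  ((Finset.range T).filter (fun i => ¬ FPP (r i) ∧ FPP (r (i + 1)))).card

/-- two incomparable points below everything -/
def J {β : Type} (r : β → β → Prop) : Bool ⊕ β → Bool ⊕ β → Prop
  | .inl a, .inl b => a = b
  | .inl _, .inr _ => True
  | .inr _, .inl _ => False
  | .inr x, .inr y => r x y

/-- UP. Induction on the number of incomparable pairs. If `r` is not linear take an incomparable pair `(a, b)` such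
that the number of `u < a` plus the number of `v > b`is... : choose `a` minimal (for `r`) among the elements which are
incomparable to something, then `b` maximal (for `r`) among the elements incomparable to `a`; then `u < a → u < b`
and `b < v → a < v`, so adding `(a, b)` gives an order. -/
def S_UP : Prop := ∀ (α : Type) [Finite α] (r : α → α → Prop), IsOrder r →
  ∃ t, IsOrder t ∧ (∀ x y, t x y ∨ t y x) ∧ Rch r 0 t

/-- DOWN. Induction on the number of pairs: remove a covering pair `(a, b)` (`a < b`, nothing between): the rest is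
an order. -/
def S_DOWN : Prop := ∀ (α : Type) [Finite α] (r : α → α → Prop), IsOrder r → Rch (fun x y => x = y) 0 r

/-- SEQ. From the path a sequence `r 0, ..., r T` (constant afterwards) with `IsMaximalChain T r` and `m ≤ countSw`;
`T = n.choose 2` since `card_prs` of the starting file counts the pairs (a linear order has `n (n + 1) / 2` pairs). -/
def S_SEQ : Prop := ∀ (n m : ℕ) (t : Fin n → Fin n → Prop), Rch (fun x y => x = y) m t → (∀ x y, t x y ∨ t y x) →
  ∃ r : ℕ → Fin n → Fin n → Prop, IsMaximalChain (n.choose 2) r ∧ m ≤ countSw (n.choose 2) r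

/-- CON. If `i + 2 ≤ n` then the comparability graph of `r i` (`i` strict pairs) is not connected
(`SimpleGraph.Connected.card_vert_le_card_edgeSet_add_one`); send one component to a point outside and the rest
to a point of the component. (`card_prs` of the starting file: `r i` has `n + i` pairs.) -/
def S_CON : Prop := ∀ (n : ℕ) (r : ℕ → Fin n → Fin n → Prop), IsMaximalChain (n.choose 2) r →
  ∀ i, i ≤ n.choose 2 → i + 2 ≤ n → ¬ FPP (r i)

/-- UB, from CON. An adjacency `i` has `n ≤ i + 2` (CON for `i + 1`) and `n ≤ 2 (T - i)` (`fpp_of_few`), and `i`, `i + 1`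
are not both adjacencies; so `i ↦ (i - (n - 2)) / 2` is injective on them. -/
def S_UB : Prop := ∀ (n : ℕ), 2 ≤ n → ∀ r : ℕ → Fin n → Fin n → Prop, IsMaximalChain (n.choose 2) r →
  countSw (n.choose 2) r ≤ (n - 2) ^ 2 / 4 + 1

/-- ONE. Induction on the path: at some step FPP appears. -/
def S_ONE : Prop := ∀ (α : Type) (r t : α → α → Prop), Rch r 0 t → ¬ FPP r → FPP t → Rch r 1 t

/-- TRA. Composition, and transport along an equivalence (`chain_equiv`, `fpp_equiv` of the starting file). -/
def S_TRA : Prop := (∀ (α : Type) (r s t : α → α → Prop) (m k : ℕ), Rch r m s → Rch s k t → Rch r (m + k) t) ∧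
  (∀ (α β : Type) (e : β ≃ α) (r s : α → α → Prop) (m : ℕ), Rch r m s →
    Rch (fun x y => r (e x) (e y)) m (fun x y => s (e x) (e y))) ∧
  (∀ (α β : Type) (e : β ≃ α) (r : α → α → Prop), FPP (fun x y => r (e x) (e y)) ↔ FPP r)

/-- JOIN. `FPP r → FPP (J r)`: if `f (inr x) = inl a` then `f (inl a') ≤ inl a`, so `f (inl a) = inl a`; otherwise `f`
restricts to `β`. `¬ FPP r → ¬ FPP (J r)`: exchange the two points. Steps lift. -/
def S_JOIN : Prop := ∀ (β : Type) (r s : β → β → Prop) (m : ℕ), (FPP (J r) ↔ FPP r) ∧ (Rch r m s → Rch (J r) m (J s))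

/-- RET. `h = ρ ∘ f` satisfies `h t ≤ t`, so the iterates `h^[n] t` decrease and some `p` has `ρ (f p) = p`, so
`p ≤ f p`, so the iterates `f^[n] p` increase and become constant. -/
def S_RET : Prop := ∀ (α : Type) [Finite α] (r : α → α → Prop), IsOrder r → ∀ (ρ : α → α),
  (∀ x y, r x y → r (ρ x) (ρ y)) → (∀ x, r (ρ x) x) → ∀ t, (∀ x, r (ρ x) t) → FPP r

/-- `2 k + 4` points -/
inductive EV (k : ℕ) : Type
  | a | b | c | w
  | x (i : Fin k)
  | y (i : Fin k)

/-- always `a < c`, `a < w`, `x i < c`, `x i < y i`; the other pairs depend on the parameters -/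
def E (k j1 j2 l1 l2 : ℕ) (p q : Prop) : EV k → EV k → Prop
  | .a, .a => True
  | .b, .b => True
  | .c, .c => True
  | .w, .w => True
  | .x i, .x j => i = j
  | .y i, .y j => i = j
  | .a, .c => True
  | .a, .w => True
  | .a, .y i => i.1 < j1
  | .a, .x i => i.1 < j2
  | .b, .c => p
  | .b, .w => q
  | .b, .y i => i.1 < l1
  | .b, .x i => i.1 < l2
  | .x _, .c => True
  | .x i, .y j => i = j
  | _, _ => False

/-- EVEN (from RET). `E` is an order if `j2 ≤ j1`, `l2 ≤ l1` and (`0 < l2 → p`). The path: first `p` becomes true (`b < c`);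
then for `j = 0, ..., k-1`: `j1` and then `j2` grow to `j + 1` (with `l1 = l2 = 0`); then for `l = 0, ..., k-1`: `l1` and then
`l2` grow to `l + 1` (with `j1 = j2 = k`); then `q` becomes true (`b < w`). FPP holds for `j1 = j2`, `l1 = l2`, `p`, `¬ q`:
RET with `ρ (y i) = x i`, `ρ w = a`, identity otherwise, `t = c`. It fails: at the start (all others → `b`, `b` → `c`);
for `j1 = j + 1`, `j2 = j`, `l = 0`, `p`, `¬ q`: `a, b → x j`, `x j → a`, `c → y j`, `y j → c`, all others → `y j`;
for `j1 = j2 = k`, `l1 = l + 1`, `l2 = l`, `p`, `¬ q`: `a → b`, `b → a`, `x l → b`, `c → y l`, `y l → c`, others → `y l`.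
So there are `1 + k + k` adjacencies. -/
def S_EVEN : Prop := ∀ k : ℕ, Rch (E k 0 0 0 0 False False) (2 * k + 1) (E k k k k k True True)

/-- EID. `a, b → inl`, `c → c`, `x last → a`, `y last → w`, `w → b`, `x i → x i`, `y i → y i`. Also no FPP for the base:
exchange `a, b` and `c, w`. -/
def S_EID : Prop := (∀ k : ℕ, ∃ e : EV (k + 1) ≃ Bool ⊕ EV k, ∀ u v,
    E (k + 1) (k + 1) (k + 1) (k + 1) (k + 1) True True u v ↔ J (E k 0 0 0 0 False False) (e u) (e v)) ∧
  ¬ FPP (E 0 0 0 0 0 True True) ∧ ∀ k, Nonempty (EV k ≃ Fin (2 * k + 4))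

/-- `2 k + 5` points -/
inductive OV (k : ℕ) : Type
  | a | b | c | z | w
  | x (i : Fin k)
  | y (i : Fin k)

/-- always `a < c`, `a < z`, `b < c`, `x i < c`, `x i < y i`; `p`: `b < w`; `q`: `b < z`; `u`: `z < c`; `v`: `a < w` -/
def O (k j1 j2 l1 l2 : ℕ) (p q u v : Prop) : OV k → OV k → Prop
  | .a, .a => True
  | .b, .b => True
  | .c, .c => True
  | .z, .z => True
  | .w, .w => True
  | .x i, .x j => i = j
  | .y i, .y j => i = j
  | .a, .c => True
  | .a, .z => True
  | .a, .w => v
  | .a, .y i => i.1 < j1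
  | .a, .x i => i.1 < j2
  | .b, .c => True
  | .b, .w => p
  | .b, .z => q
  | .b, .y i => i.1 < l1
  | .b, .x i => i.1 < l2
  | .z, .c => u
  | .x _, .c => True
  | .x i, .y j => i = j
  | _, _ => False

/-- ODD (from RET), very similar to EVEN. The path: `p` (`b < w`); then `j1`, `j2` as in EVEN, then `l1`, `l2` as in EVEN, then
`q` (`b < z`), then `u` (`z < c`), then `v` (`a < w`). FPP: `j1 = j2`, `l1 = l2`, `p`, `¬ q`, `¬ u`, `¬ v`: RET with
`ρ (y i) = x i`, `ρ w = b`, `ρ z = a`, `t = c`; and at `p, q, u, ¬ v` (all legs): `ρ (y i) = x i`, `ρ w = b`, `t = c`. No FPP: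
at the start (`w → c`, all others → `w`); for `j1 = j + 1`, `j2 = j`, `l = 0`, `p` only: `a, b → x j`, `x j → a`, `c → y j`,
`y j → c`, others → `y j`; for `l1 = l + 1`, `l2 = l`, `j1 = j2 = k`, `p` only: `a → b`, `b → a`, `x l → b`, `c → y l`,
`y l → c`, others → `y l`; for all legs, `p, q, ¬ u, ¬ v`: `a → b`, `b → a`, `c → z`, `z → c`, others → `z`.
So there are `1 + k + k + 1` adjacencies. -/
def S_ODD : Prop := ∀ k : ℕ, Rch (O k 0 0 0 0 False False False False) (2 * k + 2) (O k k k k k True True True True)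

/-- OID. `a, b → inl`, `c → c`, `z → b`, `w → w`, `x last → a`, `y last → z`. Base: exchange `a, b`; `c → w`, others → `c`,
(`z → w`). -/
def S_OID : Prop := (∀ k : ℕ, ∃ e : OV (k + 1) ≃ Bool ⊕ OV k, ∀ s t,
    O (k + 1) (k + 1) (k + 1) (k + 1) (k + 1) True True True True s t ↔
      J (O k 0 0 0 0 False False False False) (e s) (e t)) ∧
  ¬ FPP (O 0 0 0 0 0 True True True True) ∧ ∀ k, Nonempty (OV k ≃ Fin (2 * k + 5))

end Run7.h83.FP
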